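import Pool.Agent.N874.PM.Stm
import Pool.Agent.N704.PP.Loc2

/-!
# Local analysis over `M` at the primes dividing `D`

Project PM (helper874), part PM-LOC2M (helper849), after helper704's `N704/PP/Loc2`.
-/

set_option autoImplicit false
set_option linter.all false

open Polynomial IsDedekindDomain WithZero
open Pool.Agent.N874.PP Pool.Agent.N874.PM
open scoped Classical

namespace Pool.Agent.N849.PM

open Pool.Agent.N704.PP (vx near_one near sq1_of ev_of ev_of_sq1 mlt mlt' sq_or exp_odd)

section gen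

variable {M Ω R O : Type} [Field M] [Field Ω] [Algebra M Ω] [CommRing R]
  [IsDedekindDomain R] [Algebra R M] [IsFractionRing R M] [CommRing O] [IsDedekindDomain O]
  [Algebra O Ω] [IsFractionRing O Ω] {w : HeightOneSpectrum R} {𝔓 : HeightOneSpectrum O}

theorem eval_dvd (j : w.adicCompletion M →+* 𝔓.adicCompletion Ω)
    (hj : ∀ x : M, j (algebraMap M (w.adicCompletion M) x) =
      algebraMap Ω (𝔓.adicCompletion Ω) (algebraMap M Ω x)) {A B : M} {Θ : Ω}
    (hΘ : Θ ^ 3 + algebraMap M Ω A * Θ + algebraMap M Ω B = 0)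
    {p : (w.adicCompletion M)[X]}
    (hp : X ^ 3 + C (algebraMap M (w.adicCompletion M) A) * X +
      C (algebraMap M (w.adicCompletion M) B) ∣ p) :
    p.eval₂ j (algebraMap Ω (𝔓.adicCompletion Ω) Θ) = 0 := by
  obtain ⟨q, rfl⟩ := hp
  rw [eval₂_mul]
  have e : eval₂ j (algebraMap Ω (𝔓.adicCompletion Ω) Θ)
      (X ^ 3 + C (algebraMap M (w.adicCompletion M) A) * X +
      C (algebraMap M (w.adicCompletion M) B)) = 0 := by
    simp only [eval₂_add, eval₂_mul, eval₂_pow, eval₂_X, eval₂_C]
    rw [hj, hj, ← map_pow, ← map_mul, ← map_add, ← map_add, hΘ, map_zero]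
  rw [e, zero_mul]

theorem eval_h (j : w.adicCompletion M →+* 𝔓.adicCompletion Ω)
    (hj : ∀ x : M, j (algebraMap M (w.adicCompletion M) x) =
      algebraMap Ω (𝔓.adicCompletion Ω) (algebraMap M Ω x)) (Θ : Ω) (h : M[X]) :
    (h.map (algebraMap M (w.adicCompletion M))).eval₂ j (algebraMap Ω (𝔓.adicCompletion Ω) Θ) =
      algebraMap Ω (𝔓.adicCompletion Ω) (aeval Θ h) := by
  rw [eval₂_map]
  have e : j.comp (algebraMap M (w.adicCompletion M)) =
      (algebraMap Ω (𝔓.adicCompletion Ω)).comp (algebraMap M Ω) := by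
    exact RingHom.ext fun x => hj x
  rw [e, ← Polynomial.hom_eval₂]
  rfl

/-- The two cases of `PLoc` over the completion of `Ω`. -/
theorem ploc_cases (j : w.adicCompletion M →+* 𝔓.adicCompletion Ω)
    (hj : ∀ x : M, j (algebraMap M (w.adicCompletion M) x) =
      algebraMap Ω (𝔓.adicCompletion Ω) (algebraMap M Ω x)) {A B : M} {Θ : Ω}
    (hΘ : Θ ^ 3 + algebraMap M Ω A * Θ + algebraMap M Ω B = 0) {h : M[X]}
    (hl : PLoc (w.adicCompletion M) A B h) :
    (∃ g : 𝔓.adicCompletion Ω, algebraMap Ω (𝔓.adicCompletion Ω) (aeval Θ h) = g ^ 2) ∨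
    ∃ x y : w.adicCompletion M, y ≠ 0 ∧
    y ^ 2 = x ^ 3 + algebraMap M (w.adicCompletion M) A * x +
      algebraMap M (w.adicCompletion M) B ∧
    (∃ g : 𝔓.adicCompletion Ω, (j x - algebraMap Ω (𝔓.adicCompletion Ω) Θ) *
        algebraMap Ω (𝔓.adicCompletion Ω) (aeval Θ h) = g ^ 2) := by
  rcases hl with ⟨g, hg⟩ | ⟨x, y, hy, hxy, g, hg⟩
  · left
    refine ⟨g.eval₂ j (algebraMap Ω (𝔓.adicCompletion Ω) Θ), ?_⟩
    have := eval_dvd j hj hΘ hg
    rw [eval₂_sub, eval₂_pow, eval_h j hj, sub_eq_zero] at this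
    exact this
  · right
    refine ⟨x, y, hy, hxy, g.eval₂ j (algebraMap Ω (𝔓.adicCompletion Ω) Θ), ?_⟩
    have := eval_dvd j hj hΘ hg
    rw [eval₂_sub, eval₂_pow, eval₂_mul, eval₂_sub, eval₂_C, eval₂_X, eval_h j hj,
      sub_eq_zero] at this
    exact this

theorem Lies.eq_one (hL : Lies (M := M) (Ω := Ω) w 𝔓) {x : M} (hx : w.valuation M x = 1) :
    𝔓.valuation Ω (algebraMap M Ω x) = 1 := by
  refine le_antisymm (hL.le x hx.le) ?_
  have h0 : x ≠ 0 := by
    rintro rfl
    rw [map_zero] at hx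
    exact zero_ne_one hx
  have h1 : 𝔓.valuation Ω (algebraMap M Ω x⁻¹) ≤ 1 := by
    refine hL.le _ ?_
    rw [map_inv₀, hx, inv_one]
  have h2 : 𝔓.valuation Ω (algebraMap M Ω x) * 𝔓.valuation Ω (algebraMap M Ω x⁻¹) = 1 := by
    rw [← map_mul, ← map_mul, mul_inv_cancel₀ h0, map_one, map_one]
  calc (1 : WithZero (Multiplicative ℤ)) = _ := h2.symm
    _ ≤ 𝔓.valuation Ω (algebraMap M Ω x) * 1 := mul_le_mul' le_rfl h1
    _ = _ := mul_one _

/-- Integral elements are congruent to elements of `R`. -/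
theorem resR (x : M) (hx : w.valuation M x ≤ 1) :
    ∃ r : R, w.valuation M (algebraMap R M r - x) < 1 := by
  obtain ⟨r, hr⟩ := w.exists_valuation_sub_lt_of_integer (K := M) hx 1
  exact ⟨r, by exact_mod_cast hr⟩

/-- Units at `w` are squares or `- a` times squares. -/
theorem sq_or_w [Finite (R ⧸ w.asIdeal)] {a : M} (ha : w.valuation M a ≤ 1)
    (hns : ∀ z : M, w.valuation M z ≤ 1 → ¬ w.valuation M (z ^ 2 + a) < 1) {u : M}
    (hu : w.valuation M u ≤ 1) :
    (∃ z : M, w.valuation M z ≤ 1 ∧ w.valuation M (z ^ 2 - u) < 1) ∨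
      ∃ z : M, w.valuation M z ≤ 1 ∧ w.valuation M (z ^ 2 + a * u) < 1 := by
  haveI := w.isMaximal
  letI : Field (R ⧸ w.asIdeal) := Ideal.Quotient.field w.asIdeal
  obtain ⟨a0, ha0⟩ := resR a ha
  obtain ⟨u0, hu0⟩ := resR u hu
  have hle : ∀ r : R, w.valuation M (algebraMap R M r) ≤ 1 := fun r => w.valuation_le_one r
  have hmem : ∀ r : R, Ideal.Quotient.mk w.asIdeal r = 0 → w.valuation M (algebraMap R M r) < 1 := by
    intro r hr
    rw [HeightOneSpectrum.valuation_lt_one_iff_mem]
    exact Ideal.Quotient.eq_zero_iff_mem.1 hr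
  have hn : ¬ IsSquare (Ideal.Quotient.mk w.asIdeal (-a0)) := by
    rintro ⟨r, hr⟩
    obtain ⟨z, rfl⟩ := Ideal.Quotient.mk_surjective r
    apply hns (algebraMap R M z) (hle z)
    have h1 : w.valuation M (algebraMap R M (z ^ 2 + a0)) < 1 := by
      apply hmem
      rw [map_add, map_pow, pow_two, ← hr, map_neg]
      ring
    have e : algebraMap R M z ^ 2 + a = algebraMap R M (z ^ 2 + a0) - (algebraMap R M a0 - a) := by
      rw [map_add, map_pow]; ring
    rw [e]
    exact lt_of_le_of_lt (Valuation.map_sub _ _ _) (max_lt h1 ha0)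
  rcases sq_or hn (u := Ideal.Quotient.mk w.asIdeal u0) with ⟨r, hr⟩ | ⟨r, hr⟩
  · left
    obtain ⟨z, rfl⟩ := Ideal.Quotient.mk_surjective r
    refine ⟨algebraMap R M z, hle z, ?_⟩
    have h1 : w.valuation M (algebraMap R M (z ^ 2 - u0)) < 1 := by
      apply hmem
      rw [map_sub, map_pow, hr]
      ring
    have e : algebraMap R M z ^ 2 - u = algebraMap R M (z ^ 2 - u0) + (algebraMap R M u0 - u) := by
      rw [map_sub, map_pow]; ring
    rw [e]
    exact lt_of_le_of_lt (Valuation.map_add _ _ _) (max_lt h1 hu0)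
  · right
    obtain ⟨z, rfl⟩ := Ideal.Quotient.mk_surjective r
    refine ⟨algebraMap R M z, hle z, ?_⟩
    have h1 : w.valuation M (algebraMap R M (z ^ 2 + a0 * u0)) < 1 := by
      apply hmem
      rw [map_add, map_pow, map_mul]
      rw [map_neg] at hr
      linear_combination -hr
    have e : algebraMap R M z ^ 2 + a * u = algebraMap R M (z ^ 2 + a0 * u0) -
        ((algebraMap R M a0 - a) * algebraMap R M u0 + a * (algebraMap R M u0 - u)) := by
      rw [map_add, map_pow, map_mul]; ring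
    rw [e]
    refine lt_of_le_of_lt (Valuation.map_sub _ _ _) (max_lt h1 ?_)
    refine lt_of_le_of_lt (Valuation.map_add _ _ _) (max_lt ?_ ?_)
    · rw [map_mul]
      exact mlt' ha0 (hle u0)
    · rw [map_mul]
      exact mlt ha hu0

/-- Units at `w` are squares at `𝔓` if `θ` is a unit. -/
theorem sq_deg_two [Finite (R ⧸ w.asIdeal)] (hL : Lies (M := M) (Ω := Ω) w 𝔓) {a b : M} {θ : Ω}
    (hroot : θ ^ 3 + algebraMap M Ω a * θ + algebraMap M Ω b = 0)
    (ha : w.valuation M a ≤ 1) (hb : w.valuation M b < 1)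
    (hns : ∀ z : M, w.valuation M z ≤ 1 → ¬ w.valuation M (z ^ 2 + a) < 1) {u : M}
    (hu : w.valuation M u ≤ 1) (h1 : 𝔓.valuation Ω θ = 1) :
    ∃ s : Ω, 𝔓.valuation Ω (s ^ 2 - algebraMap M Ω u) < 1 := by
  have hθ : θ ≠ 0 := by
    rintro rfl
    rw [map_zero] at h1
    exact zero_ne_one h1
  have h2 : 𝔓.valuation Ω (θ ^ 2 + algebraMap M Ω a) < 1 := by
    have e : (θ ^ 2 + algebraMap M Ω a) * θ = - algebraMap M Ω b := by
      linear_combination hroot
    have h3 := congrArg (𝔓.valuation Ω) e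
    rw [map_mul, h1, mul_one, Valuation.map_neg] at h3
    rw [h3]
    exact hL.lt b hb
  rcases sq_or_w ha hns hu with ⟨z, hz, hz2⟩ | ⟨z, hz, hz2⟩
  · refine ⟨algebraMap M Ω z, ?_⟩
    rw [← map_pow, ← map_sub]
    exact hL.lt _ hz2
  · refine ⟨algebraMap M Ω z / θ, ?_⟩
    have e : (algebraMap M Ω z / θ) ^ 2 - algebraMap M Ω u =
        (algebraMap M Ω (z ^ 2 + a * u) -
          algebraMap M Ω u * (θ ^ 2 + algebraMap M Ω a)) / θ ^ 2 := by
      rw [map_add, map_pow, map_mul]
      field_simp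
      ring
    rw [e, map_div₀, map_pow, h1, one_pow, div_one]
    refine lt_of_le_of_lt (Valuation.map_sub _ _ _) (max_lt (hL.lt _ hz2) ?_)
    rw [map_mul]
    exact mlt (hL.le u hu) h2

theorem u0_of_sq1 {ϖ α : Ω} (h : Sq1 𝔓 α) : U0 𝔓 ϖ α :=
  ⟨fun _ => h, fun hn => absurd (ev_of_sq1 𝔓 h) hn⟩

theorem u0_of_sq1' {ϖ α : Ω} (hα : α ≠ 0) (hϖ : ¬ Ev 𝔓 ϖ) (h : Sq1 𝔓 (α * ϖ)) : U0 𝔓 ϖ α := by
  refine ⟨fun he => ?_, fun _ => h⟩
  exfalso
  apply hϖ
  obtain ⟨y, hy⟩ := he
  obtain ⟨z, hz⟩ := ev_of_sq1 𝔓 h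
  have h0 : 𝔓.valuation Ω α ≠ 0 := (Valuation.ne_zero_iff _).2 hα
  refine ⟨z / y, ?_⟩
  rw [map_mul] at hz
  rw [map_div₀, div_pow, ← hz, ← hy, mul_div_cancel_left₀ _ h0]

end gen

theorem loc2m : S_LOC2M := by
  intro M Ω R O _ _ _ _ _ _ _ _ _ _ _ w 𝔓 _ hL a b ϖ D' θ h hroot h6 ha hb hϖ hD hns hl hne
  obtain ⟨j, hj1, hj2, hj3⟩ := Pool.Agent.TH115.GD.exists_compl_map w 𝔓 (algebraMap M Ω) hL.le hL.lt
  have hΘ : (algebraMap M Ω (ϖ * D') * θ) ^ 3 + algebraMap M Ω (a * (ϖ * D') ^ 2) *
      (algebraMap M Ω (ϖ * D') * θ) + algebraMap M Ω (b * (ϖ * D') ^ 3) = 0 := by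
    simp only [map_mul, map_pow]
    linear_combination (algebraMap M Ω ϖ * algebraMap M Ω D') ^ 3 * hroot
  set Θ : Ω := algebraMap M Ω (ϖ * D') * θ with hΘd
  set α : Ω := aeval Θ h with hα
  have hϖ0 : ϖ ≠ 0 := by
    rintro rfl
    rw [map_zero] at hϖ
    exact exp_ne_zero hϖ.symm
  have hD0 : D' ≠ 0 := by
    rintro rfl
    rw [map_zero] at hD
    exact zero_ne_one hD
  have hQE : algebraMap M (w.adicCompletion M) ϖ ≠ 0 := by rw [Ne, map_eq_zero]; exact hϖ0
  have hDE : algebraMap M (w.adicCompletion M) D' ≠ 0 := by rw [Ne, map_eq_zero]; exact hD0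
  have hαE : algebraMap Ω (𝔓.adicCompletion Ω) α ≠ 0 := by rw [Ne, map_eq_zero]; exact hne
  -- it suffices to prove
  suffices hmain : 𝔓.valuation Ω θ ≤ 1 → (Sq1 𝔓 α ∨ ((𝔓.valuation Ω θ = 1 →
      Sq1 𝔓 (α * (algebraMap M Ω ϖ * θ))) ∧ (𝔓.valuation Ω θ < 1 → Ev 𝔓 α))) by
    refine ⟨fun h1 h2 => ?_, fun h1 => ?_⟩
    · rcases hmain h1.le with h3 | ⟨h3, -⟩
      · exact u0_of_sq1 h3
      · exact u0_of_sq1' hne h2 (h3 h1)
    · rcases hmain h1.le with h3 | ⟨-, h3⟩
      · exact ev_of_sq1 𝔓 h3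
      · exact h3 h1
  intro hθ
  rcases ploc_cases j hj1 hΘ hl with ⟨g, hg⟩ | ⟨x, y, hy0, hxy, g, hg⟩
  · left
    refine sq1_of 𝔓 α g ?_
    rw [← hα] at hg
    rw [← hg, sub_self, map_zero]
    exact zero_lt_iff.2 ((Valuation.ne_zero_iff _).2 hαE)
  · rw [← hα] at hg
    set q := algebraMap M (w.adicCompletion M) ϖ with hq
    set d := algebraMap M (w.adicCompletion M) D' with hd
    set a' := algebraMap M (w.adicCompletion M) a with ha'
    set b' := algebraMap M (w.adicCompletion M) b with hb'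
    have hxy' : y ^ 2 = x ^ 3 + a' * (q * d) ^ 2 * x + b' * (q * d) ^ 3 := by
      rw [hxy]
      simp only [map_mul, map_pow, hq, hd, ha', hb']
    have va' : Valued.v a' ≤ 1 := by rw [ha', vx]; exact ha
    have vb' : Valued.v b' < 1 := by rw [hb', vx]; exact hb
    have vd : Valued.v d = 1 := by rw [hd, vx, hD]
    have vq : Valued.v q = exp (-1 : ℤ) := by rw [hq, vx, hϖ]
    have jq : j q = algebraMap Ω (𝔓.adicCompletion Ω) (algebraMap M Ω ϖ) := by rw [hq, hj1]
    have jd : j d = algebraMap Ω (𝔓.adicCompletion Ω) (algebraMap M Ω D') := by rw [hd, hj1]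
    set t := algebraMap Ω (𝔓.adicCompletion Ω) θ with ht
    have vt : Valued.v t = 𝔓.valuation Ω θ := by rw [ht, vx]
    have hΘE : algebraMap Ω (𝔓.adicCompletion Ω) Θ = j q * j d * t := by
      rw [hΘd, map_mul, map_mul, map_mul, jq, jd]
    rw [hΘE] at hg
    have hjd0 : j d ≠ 0 := by rw [Ne, map_eq_zero]; exact hDE
    have hjq0 : j q ≠ 0 := by rw [Ne, map_eq_zero]; exact hQE
    have vjd : Valued.v (j d) = 1 := by rw [jd, vx]; exact Lies.eq_one hL hD
    have hjy0 : j y ≠ 0 := by rw [Ne, map_eq_zero]; exact hy0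
    by_cases hx : Valued.v x ≤ Valued.v q
    · -- `x = ϖ D' x'`
      right
      set x' := x / (q * d) with hx'
      have ex : x = q * d * x' := by
        rw [hx']; field_simp
      have vx' : Valued.v x' ≤ 1 := by
        rw [hx', map_div₀, map_mul, vd, mul_one]
        exact (div_le_one₀ (zero_lt_iff.2 ((Valuation.ne_zero_iff _).2 hQE))).2 hx
      have hyx : y ^ 2 = (q * d) ^ 3 * (x' ^ 3 + a' * x' + b') := by
        rw [hxy', ex]; ring
      have vx1 : Valued.v x' < 1 := by
        by_contra hcon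
        have vx1 : Valued.v x' = 1 := le_antisymm vx' (not_lt.1 hcon)
        obtain ⟨z, hz⟩ := near_one w x'
        have vz : w.valuation M z ≤ 1 := by
          rw [← vx]
          have e : algebraMap M (w.adicCompletion M) z =
              x' - (x' - algebraMap M (w.adicCompletion M) z) := by ring
          rw [e]
          exact (Valuation.map_sub _ _ _).trans (max_le vx' hz.le)
        have h2 : Valued.v (x' ^ 2 + a') = 1 := by
          have h2' : Valued.v (x' ^ 2 + a') ≤ 1 := by
            refine (Valuation.map_add _ _ _).trans (max_le ?_ va')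
            rw [map_pow]; exact pow_le_one' vx' 2
          refine le_antisymm h2' (not_lt.1 fun h3 => hns z vz ?_)
          rw [← vx]
          have e : algebraMap M (w.adicCompletion M) (z ^ 2 + a) =
              (x' ^ 2 + a') - (x' - algebraMap M (w.adicCompletion M) z) *
                (x' + algebraMap M (w.adicCompletion M) z) := by
            rw [map_add, map_pow]; ring
          rw [e]
          refine lt_of_le_of_lt (Valuation.map_sub _ _ _) (max_lt h3 ?_)
          rw [map_mul]
          refine mlt' hz ((Valuation.map_add _ _ _).trans (max_le vx' ?_))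
          rw [vx]; exact vz
        have h4 : Valued.v (x' ^ 3 + a' * x' + b') = 1 := by
          have e : x' ^ 3 + a' * x' + b' = x' * (x' ^ 2 + a') + b' := by ring
          have h5 : Valued.v (x' * (x' ^ 2 + a')) = 1 := by rw [map_mul, vx1, h2, mul_one]
          rw [e, Valuation.map_add_eq_of_lt_left _ (by rw [h5]; exact vb'), h5]
        have h5 := congrArg (Valued.v : w.adicCompletion M → WithZero (Multiplicative ℤ)) hyx
        rw [map_pow, map_mul, h4, mul_one, map_pow, map_mul, vd, mul_one, vq, ← exp_nsmul] at h5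
        refine exp_odd (x := 1) (y := Valued.v y) (n := 3 • (-1 : ℤ)) ⟨-2, by norm_num⟩
          one_ne_zero ?_
        rw [one_pow, one_mul]
        exact h5.symm
      have jx1 : Valued.v (j x') < 1 := hj3 _ vx1
      have hg' : (j q * j d * j x' - j q * j d * t) * algebraMap Ω (𝔓.adicCompletion Ω) α =
          g ^ 2 := by
        rw [← hg, ex, map_mul, map_mul]
      refine ⟨fun hθ1 => ?_, fun hθ1 => ?_⟩
      · obtain ⟨s0, hs0⟩ := sq_deg_two hL hroot ha hb hns (u := -D')
          (by rw [Valuation.map_neg, hD]) hθ1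
        rw [hθ1] at vt
        have ht0 : t ≠ 0 := by
          intro h
          rw [h, map_zero] at vt
          exact zero_ne_one vt
        set β := algebraMap Ω (𝔓.adicCompletion Ω) (α * (algebraMap M Ω ϖ * θ)) with hβ
        have hβ' : β = algebraMap Ω (𝔓.adicCompletion Ω) α * (j q * t) := by
          rw [hβ, map_mul, map_mul, jq]
        have hβ0 : β ≠ 0 := by
          rw [hβ']
          exact mul_ne_zero hαE (mul_ne_zero hjq0 ht0)
        -- the relation
        have rel : β * (1 - j x' / t) = - (j d) * (g / j d) ^ 2 := by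
          rw [hβ', div_pow, ← hg']
          field_simp
          ring
        have v1 : Valued.v (1 - j x' / t) = 1 := by
          rw [Valuation.map_sub_eq_of_lt_left _ (by
            rw [map_div₀, vt, div_one, map_one]; exact jx1), map_one]
        have v2 : Valued.v ((g / j d) ^ 2) = Valued.v β := by
          have := congrArg (Valued.v : 𝔓.adicCompletion Ω → WithZero (Multiplicative ℤ)) rel
          rw [map_mul, v1, mul_one, map_mul, Valuation.map_neg, vjd, one_mul] at this
          exact this.symm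
        refine sq1_of 𝔓 _ (algebraMap Ω (𝔓.adicCompletion Ω) s0 * (g / j d)) ?_
        rw [← hβ]
        have e : β - (algebraMap Ω (𝔓.adicCompletion Ω) s0 * (g / j d)) ^ 2 =
            β * (j x' / t) - (algebraMap Ω (𝔓.adicCompletion Ω)
              (s0 ^ 2 - algebraMap M Ω (-D'))) * (g / j d) ^ 2 := by
          have e2 : algebraMap Ω (𝔓.adicCompletion Ω) (s0 ^ 2 - algebraMap M Ω (-D')) =
              algebraMap Ω (𝔓.adicCompletion Ω) s0 ^ 2 + j d := by
            rw [map_sub, map_pow, map_neg, map_neg, jd]; ring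
          rw [e2]
          linear_combination rel
        rw [e]
        have vβ : 0 < Valued.v β := zero_lt_iff.2 ((Valuation.ne_zero_iff _).2 hβ0)
        refine lt_of_le_of_lt (Valuation.map_sub _ _ _) (max_lt ?_ ?_)
        · rw [map_mul, map_div₀, vt, div_one]
          calc _ < Valued.v β * 1 := mul_lt_mul_of_pos_left jx1 vβ
            _ = _ := mul_one _
        · rw [map_mul, v2, vx]
          calc _ < 1 * Valued.v β := mul_lt_mul_of_pos_right hs0 vβ
            _ = _ := one_mul _
      · rw [← vt] at hθ1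
        have ja : j a' = algebraMap Ω (𝔓.adicCompletion Ω) (algebraMap M Ω a) := by rw [ha', hj1]
        have jb : j b' = algebraMap Ω (𝔓.adicCompletion Ω) (algebraMap M Ω b) := by rw [hb', hj1]
        have va1 : w.valuation M a = 1 := by
          refine le_antisymm ha (not_lt.1 fun h3 => hns 0 (by rw [map_zero]; exact zero_le) ?_)
          rw [zero_pow two_ne_zero, zero_add]
          exact h3
        have vja : Valued.v (j a') = 1 := by rw [ja, vx]; exact Lies.eq_one hL va1
        have ht3 : t ^ 3 + j a' * t + j b' = 0 := by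
          rw [ja, jb, ht, ← map_pow, ← map_mul, ← map_add, ← map_add, hroot, map_zero]
        have hjyx : j y ^ 2 = (j q * j d) ^ 3 * ((j x' - t) *
            (j x' ^ 2 + j x' * t + t ^ 2 + j a')) := by
          rw [← map_pow, hyx]
          simp only [map_mul, map_pow, map_add]
          linear_combination (j q * j d) ^ 3 * ht3
        have hv : Valued.v (j x' ^ 2 + j x' * t + t ^ 2 + j a') = 1 := by
          rw [Valuation.map_add_eq_of_lt_right _ ?_, vja]
          rw [vja]
          refine lt_of_le_of_lt (Valuation.map_add _ _ _) (max_lt ?_ ?_)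
          · refine lt_of_le_of_lt (Valuation.map_add _ _ _) (max_lt ?_ ?_)
            · rw [map_pow]
              exact pow_lt_one₀ zero_le jx1 two_ne_zero
            · rw [map_mul]
              exact mlt jx1.le hθ1
          · rw [map_pow]
            exact pow_lt_one₀ zero_le hθ1 two_ne_zero
        refine ev_of 𝔓 α (g * (j q * j d) / j y) ?_
        have e1 := congrArg (Valued.v : 𝔓.adicCompletion Ω → WithZero (Multiplicative ℤ)) hjyx
        rw [map_pow, map_mul, map_mul, hv, mul_one, map_pow] at e1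
        have e2 := congrArg (Valued.v : 𝔓.adicCompletion Ω → WithZero (Multiplicative ℤ)) hg'
        rw [← mul_sub, map_mul, map_mul, map_pow] at e2
        have n1 : Valued.v (j q * j d) ≠ 0 := (Valuation.ne_zero_iff _).2 (mul_ne_zero hjq0 hjd0)
        have n2 : Valued.v (j y) ≠ 0 := (Valuation.ne_zero_iff _).2 hjy0
        rw [map_div₀, map_mul, div_pow, eq_div_iff (pow_ne_zero 2 n2), e1, mul_pow, ← e2]
        generalize Valued.v (j q * j d) = A1
        generalize Valued.v (j x' - t) = A2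
        generalize Valued.v (algebraMap Ω (𝔓.adicCompletion Ω) α) = A3
        rw [pow_succ A1 2]
        ac_rfl
    · left
      rw [not_le] at hx
      have hx0 : x ≠ 0 := by
        rintro rfl
        rw [map_zero] at hx
        exact absurd hx (by simp)
      set ξ := q / x with hξ
      have vξ : Valued.v ξ < 1 := by
        rw [hξ, map_div₀]
        exact (div_lt_one₀ (zero_lt_iff.2 ((Valuation.ne_zero_iff _).2 hx0))).2 hx
      have eq : q = ξ * x := by rw [hξ]; field_simp
      set ε := a' * d ^ 2 * ξ ^ 2 + b' * d ^ 3 * ξ ^ 3 with hε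
      have vε : Valued.v ε < 1 := by
        refine lt_of_le_of_lt (Valuation.map_add _ _ _) (max_lt ?_ ?_)
        · rw [map_mul, map_mul, map_pow, vd, one_pow, mul_one, map_pow]
          exact mlt va' (pow_lt_one₀ zero_le vξ two_ne_zero)
        · rw [map_mul, map_mul, map_pow, vd, one_pow, mul_one, map_pow]
          exact mlt vb'.le (pow_lt_one₀ zero_le vξ three_ne_zero)
      have hy : y ^ 2 = x ^ 3 * (1 + ε) := by
        rw [hxy', hε, eq]; ring
      have hjx0 : j x ≠ 0 := by rw [Ne, map_eq_zero]; exact hx0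
      have hjy : j y ^ 2 = j x ^ 3 * (1 + j ε) := by
        rw [← map_pow, hy, map_mul, map_pow, map_add, map_one]
      have vjε : Valued.v (j ε) < 1 := hj3 _ vε
      have vj1 : Valued.v (1 + j ε) = 1 := by
        rw [Valuation.map_add_eq_of_lt_left _ (by rw [map_one]; exact vjε), map_one]
      have hj1ε : (1 + j ε) ≠ 0 := by
        intro h
        rw [h, map_zero] at vj1
        exact zero_ne_one vj1
      set ε' := - (j d * t * j ξ) with hε'
      have vε' : Valued.v ε' < 1 := by
        rw [hε', Valuation.map_neg, map_mul, map_mul, vt]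
        refine mlt ?_ (hj3 _ vξ)
        exact mul_le_one' (hj2 _ vd.le) hθ
      have hg' : j x * (1 + ε') * algebraMap Ω (𝔓.adicCompletion Ω) α = g ^ 2 := by
        rw [← hg, hε', eq, map_mul]; ring
      refine sq1_of 𝔓 α (g * j x / j y) ?_
      have e : algebraMap Ω (𝔓.adicCompletion Ω) α - (g * j x / j y) ^ 2 =
          algebraMap Ω (𝔓.adicCompletion Ω) α * ((j ε - ε') / (1 + j ε)) := by
        rw [div_pow, mul_pow, ← hg', hjy]
        field_simp
        ring
      rw [e, map_mul, map_div₀, vj1, div_one]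
      calc _ < Valued.v (algebraMap Ω (𝔓.adicCompletion Ω) α) * 1 :=
            mul_lt_mul_of_pos_left (lt_of_le_of_lt (Valuation.map_sub _ _ _)
              (max_lt vjε vε')) (zero_lt_iff.2 ((Valuation.ne_zero_iff _).2 hαE))
        _ = _ := mul_one _

end Pool.Agent.N849.PM
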